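import Pool.Agent.Helper76K9.CL.Fin
import Pool.Agent.Helper76K9.CL.HL
import Pool.Agent.Helper76K9.CL.Lse
import Pool.Agent.Helper76K9.CL.K14v
import Pool.Agent.Helper76K9.CL.Den
import Pool.Agent.Helper76K9.CL.Det
import Pool.Agent.Helper76K9.CL.So
import Pool.Agent.Helper76K9.CL.Usc
import Pool.Agent.Helper76K9.CL.Cpt
import Pool.Agent.Helper76K9.CL.Lim
import Pool.Agent.Helper76K9.CL.Opt
import Pool.Agent.Helper76K9.CL.Tri
import Pool.Agent.Helper76K9.CL.Desc
import Pool.Agent.Helper76K9.CL.Top

/-!
# A CD(0,3) space that contains a line and does not split topologically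

Let `V` be `ℝ³` with the supremum norm and Lebesgue measure and let `Q = V / {±1}` be the quotient
by the isometry `v ↦ -v`, with the quotient distance and the image of the Lebesgue measure. Then `Q`
is a complete, separable, locally compact geodesic metric measure space with full support, it
satisfies CD(0,3), it contains a line (the image of `t ↦ (t,|t|,0)`), and it is not homeomorphic to
`X' × ℝ` for any topological space `X'`. In particular it does not split off `ℝ` as a topological
measure space.
-/

set_option autoImplicit false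

namespace Pool.Agent.Results.MP_c487e3_gt.TopologicalSplittingFails

open MeasureTheory Pool.Agent.Helper76K9.CL

universe u

/-- `(X,d,m)` splits off `ℝ` as a topological measure space: there are a topological space `X'` with
a Borel measure `m'` and a homeomorphism `Φ : X → X' × ℝ` with `Φ_* m = m' ⊗ 𝓛¹`. -/
def SplitsOffLine (X : Type) [MetricSpace X] [MeasurableSpace X] (m : Measure X) : Prop :=
  ∃ (X' : Type u) (_ : TopologicalSpace X') (_ : MeasurableSpace X') (_ : BorelSpace X')
    (m' : Measure X') (Φ : X ≃ₜ X' × ℝ), m.map Φ = m'.prod (volume : Measure ℝ)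

theorem top' (X' : Type u) [TopologicalSpace X'] : IsEmpty (Q ≃ₜ X' × ℝ) :=
  top lft X'

theorem result :
    IsMMS mQ ∧ CD0 mQ 3 ∧ HasLine Q ∧ (∀ (X' : Type u) [TopologicalSpace X'],
      IsEmpty (Q ≃ₜ X' × ℝ)) ∧ ¬ SplitsOffLine.{u} Q mQ := by
  refine ⟨met.1, ?_, met.2, fun X' _ => top' X', ?_⟩
  · exact cd0 (lim (cdv pos hl (so den) det k14v) lse usc cpt) opt tri ent lift met
  · rintro ⟨X', _, _, _, _, Φ, -⟩
    exact (top' X').elim Φ

end Pool.Agent.Results.MP_c487e3_gt.TopologicalSplittingFails
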